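import Pool.Agent.Q70.ProxIrr

/-!
# Proximally irreducible extensions of affine flows compose

`Q1` of `MP_d4114f_an`, positive answer, for every topological group `G`.

Idea of the proof. Let `φ : L → K` and `ψ : P → L` be proximally irreducible and let the subflow
`C ⊆ P` meet `conv (P₀ ∩ (φψ)⁻¹ y)` for all `y ∈ K₀`, where `K₀`, `L₀`, `P₀` are the closures of the
sets of extreme points. By Baire's theorem in `K₀` the number of points in the convex combination is
bounded locally on a dense open invariant subset `O` of `K₀`. Milman's theorem and the proximal
irreducibility of `φ`, applied to the closed convex hull of the images in `L` of these convex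
combinations, show that `C` meets `conv (P₀ ∩ ψ⁻¹ z)` for all `z ∈ L₀` over `O`. Then the proximal
irreducibility of `ψ` gives that `C` contains all points of `P₀` over `O`, and these are dense enough.
-/

set_option autoImplicit false

namespace Pool.Agent.Results.MP_d4114f_an.Composition

open Q70.ProxIrr

/-- **Theorem.** Let `G` be a group with a topology (for example a Polish group), let `K`, `L`, `P` be
affine `G`-flows in Hausdorff locally convex real topological vector spaces, and let `φ : L → K` and
`ψ : P → L` be proximally irreducible affine extensions. Then `φ ∘ ψ : P → K` is a proximally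
irreducible affine extension. -/
theorem result {G E F H : Type*} [Group G] [TopologicalSpace G]
    [AddCommGroup E] [Module ℝ E] [TopologicalSpace E] [IsTopologicalAddGroup E]
    [ContinuousSMul ℝ E] [LocallyConvexSpace ℝ E] [T2Space E]
    [AddCommGroup F] [Module ℝ F] [TopologicalSpace F] [IsTopologicalAddGroup F]
    [ContinuousSMul ℝ F] [LocallyConvexSpace ℝ F] [T2Space F]
    [AddCommGroup H] [Module ℝ H] [TopologicalSpace H] [IsTopologicalAddGroup H]
    [ContinuousSMul ℝ H] [LocallyConvexSpace ℝ H] [T2Space H]
    (K : AffineFlow G E) (L : AffineFlow G F) (P : AffineFlow G H) (φ : F → E) (ψ : H → F)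
    (hφ : IsAffineExtension L K φ) (pφ : IsProxIrred L K φ)
    (hψ : IsAffineExtension P L ψ) (pψ : IsProxIrred P L ψ) :
    IsAffineExtension P K (φ ∘ ψ) ∧ IsProxIrred P K (φ ∘ ψ) :=
  ⟨hφ.comp hψ, IsProxIrred.comp hφ pφ hψ pψ⟩

end Pool.Agent.Results.MP_d4114f_an.Composition
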